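import Pool.Agent.Helper1.GT2.CORE2
import Pool.Agent.Helper20.GT.Dim
import Pool.Agent.Helper20.GT.Main2
import Pool.Agent.Helper20.GT2.FIN
import Pool.Agent.Helper20.GT2.MS
import Pool.Agent.Helper28.GT2.UNI
import Pool.Agent.Helper20.GT2.NET
import Pool.Agent.Helper68.GT2.GPB

/-!
# Geometric progressions instead of arithmetic progressions

The conjecture says that bounded sets `B ⊆ ℝ^n` which contain `x, x + r, …, x + (k - 1) r` for some
`x = x(r)` and every `r ∈ [0,1]^n` have dimension close to `n` for large `k`.  Let `Q` be the union of a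
finite set `F` and of `m` infinite geometric progressions `{a ± b L ^ (-j) : j ≥ 0}`.  We show that some
bounded set `B` of upper Minkowski dimension at most `n (1 - 1 / (5 E))`,
`E = |F| + 15 ∑ (1 + 1 / log L)`, contains for every `r ∈ [0,1]^n` all the points `x + q r`, `q ∈ Q`, with
the same `x = x(r)` for the infinitely many `q`.

So a dimension above `n (1 - ε)` can only be forced by the terms of a progression whose numbers are not
covered by `c / ε` points and geometric progressions of ratio `≥ 2`, of any length.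

Proof: at one scale `M` reverse the (leading) digits of `r` in the base `L`, so that the numbers
`x + q r`, `q = ± L ^ (-j)`, only depend on the sums (differences) of pairs of digits, uniformly in `j`;
costs are additive in `1 / (1 - θ)`; use the scales `2 ^ (2 ^ a)` one after the other.
-/

set_option autoImplicit false

open Finset Filter Topology
open scoped Classical

namespace Pool.Agent.Results.MP_4b405e_nt.GeometricPatterns

/-- The numbers `a + b / L ^ j` and `a - b / L ^ j`, `j = 0, 1, 2, …`. -/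
def progression (a b L : ℝ) : Set ℝ := {t | ∃ j : ℕ, t = a + b / L ^ j ∨ t = a - b / L ^ j}

/-- For every `r ∈ [0,1]^n` there is a point `x` such that `B` contains all the points `x + q r`,
`q ∈ Q`. -/
def HasPattern {n : ℕ} (Q : Set ℝ) (B : Set (EuclideanSpace ℝ (Fin n))) : Prop :=
  ∀ r : EuclideanSpace ℝ (Fin n), (∀ i, r i ∈ Set.Icc (0 : ℝ) 1) →
    ∃ x : EuclideanSpace ℝ (Fin n), ∀ q ∈ Q, x + q • r ∈ B

/-- The least number of sets of diameter at most `δ` covering `B` (for bounded `B`). -/
noncomputable def coverNum {n : ℕ} (B : Set (EuclideanSpace ℝ (Fin n))) (δ : ℝ) : ℕ :=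
  sInf {N | ∃ U : Fin N → Set (EuclideanSpace ℝ (Fin n)),
    (∀ i, ∀ x ∈ U i, ∀ y ∈ U i, dist x y ≤ δ) ∧ B ⊆ ⋃ i, U i}

/-- Upper Minkowski dimension. -/
noncomputable def upperMinkowski {n : ℕ} (B : Set (EuclideanSpace ℝ (Fin n))) : EReal :=
  limsup (fun δ : ℝ => ((Real.log (coverNum B δ) / Real.log (1 / δ) : ℝ) : EReal)) (𝓝[>] 0)

theorem result (F : Finset ℝ) (m : ℕ) (a b L : Fin m → ℝ) (hL : ∀ i, 1 < L i) (E : ℝ)
    (hE : E = F.card + 15 * ∑ i, (1 + 1 / Real.log (L i))) (hE0 : 0 < E) (n : ℕ) :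
    ∃ B : Set (EuclideanSpace ℝ (Fin n)), Bornology.IsBounded B ∧
      HasPattern ((F : Set ℝ) ∪ ⋃ i, progression (a i) (b i) (L i)) B ∧
      upperMinkowski B ≤ (((n : ℝ) * (1 - 1 / (5 * E)) : ℝ) : EReal) := by
  obtain ⟨B, hB, hP, hC⟩ := Pool.Agent.Helper20.GT2.main m a b L F Pool.Agent.Helper1.GT2.core2
    Pool.Agent.Helper68.GT2.gpb Pool.Agent.Helper28.GT2.uni Pool.Agent.Helper20.GT2.NETP.s_net
    Pool.Agent.Helper20.GT2.MSP.ms Pool.Agent.Helper20.GT2.FINP.fin hL hE hE0 n
  refine ⟨B, hB, hP, ?_⟩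
  have hE1 := Pool.Agent.Helper20.GT2.one_le_cost m L F hL hE hE0
  have h1 : 1 / (5 * E) ≤ 1 := by
    rw [div_le_one (by linarith)]
    linarith
  rw [mul_comm (n : ℝ)]
  exact Pool.Agent.Helper20.GT2.upper_le (mul_nonneg (by linarith) (Nat.cast_nonneg n)) hC

end Pool.Agent.Results.MP_4b405e_nt.GeometricPatterns
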