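import Pool.Agent.Helper16.AK.AP
import Pool.Graph.R_pool_sql_team_seeded_5cf16337.K3h53.AP.Port

/-!
# Progressions with seven terms: `f^M_n(7) ≥ 11 n / 19`

Lower bounds for the sets which contain a progression with seven terms and with every common
difference in a given set: the discrete form `|S| ≥ |D| ^ (11 / 19)` for finite sets of integers,
`f^M_n(7) ≥ 11 n / 19`, the same for the lower Minkowski dimension, and coverings at every scale
for an arbitrary set of common differences.

The discrete bound is an entropy argument (`Pool.Agent.Helper16.AK.CertT5`): a random progression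
is a random line, pairs of lines are glued at the first term, and two copies of such a pair along
the chord through the third term of one and the fourth term of the other; twelve submodularity
inequalities in these two configurations give `11 h(line) ≤ 10 h(0) + 5 h(1/3) + 4 h(1/2)`, `h(t)`
the entropy of the term at relative height `t`.
-/

set_option autoImplicit false

open Filter Topology

namespace Pool.Agent.Results.MP_4b405e_nt.SevenTerms

/-- `B` contains a `k`-term progression with every common difference in `R`. -/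
def HasProg {n : ℕ} (k : ℕ) (R B : Set (EuclideanSpace ℝ (Fin n))) : Prop :=
  ∀ r ∈ R, ∃ a : EuclideanSpace ℝ (Fin n), ∀ j : ℕ, j < k → a + (j : ℝ) • r ∈ B

/-- The unit cube `[0,1]^n`. -/
def cube (n : ℕ) : Set (EuclideanSpace ℝ (Fin n)) := {r | ∀ i, r i ∈ Set.Icc (0 : ℝ) 1}

/-- The least number of sets of diameter at most `δ` covering `B` (for bounded `B`). -/
noncomputable def coverNum {n : ℕ} (B : Set (EuclideanSpace ℝ (Fin n))) (δ : ℝ) : ℕ :=
  sInf {N | ∃ U : Fin N → Set (EuclideanSpace ℝ (Fin n)),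
    (∀ i, ∀ x ∈ U i, ∀ y ∈ U i, dist x y ≤ δ) ∧ B ⊆ ⋃ i, U i}

/-- Upper Minkowski dimension. -/
noncomputable def upperMinkowski {n : ℕ} (B : Set (EuclideanSpace ℝ (Fin n))) : EReal :=
  limsup (fun δ : ℝ => ((Real.log (coverNum B δ) / Real.log (1 / δ) : ℝ) : EReal)) (𝓝[>] 0)

/-- Lower Minkowski dimension. -/
noncomputable def lowerMinkowski {n : ℕ} (B : Set (EuclideanSpace ℝ (Fin n))) : EReal :=
  liminf (fun δ : ℝ => ((Real.log (coverNum B δ) / Real.log (1 / δ) : ℝ) : EReal)) (𝓝[>] 0)

/-- `f^M_n(k)`: the infimum of the upper Minkowski dimensions of the bounded sets in `ℝ^n` that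
contain a `k`-term progression with every common difference in `[0,1]^n` -/
noncomputable def fM (n k : ℕ) : EReal :=
  ⨅ (B : Set (EuclideanSpace ℝ (Fin n))) (_ : Bornology.IsBounded B) (_ : HasProg k (cube n) B),
    upperMinkowski B

theorem rpow_of {c x y : ℝ} (hc : 0 < c) (hx : 0 ≤ x) (hy : 0 ≤ y) (h : x ≤ y ^ c) :
    x ^ (1 / c) ≤ y := by
  refine (Real.rpow_le_rpow hx h (by positivity)).trans ?_
  rw [← Real.rpow_mul hy, mul_one_div_cancel hc.ne', Real.rpow_one]

/-- **Theorem.** Progressions with seven terms. -/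
theorem result :
    -- a finite set of integers which contains a progression with seven terms and with every common
    -- difference in `D` has at least `|D| ^ (11 / 19)` elements
    (∀ S D : Finset ℤ, (∀ d ∈ D, ∃ a : ℤ, ∀ j : ℕ, j < 7 → a + (j : ℤ) * d ∈ S) →
        (D.card : ℝ) ^ (11 / 19 : ℝ) ≤ (S.card : ℝ)) ∧
    -- `f^M_n(k) ≥ 11 n / 19` for `k ≥ 7`
    (∀ n k : ℕ, 7 ≤ k → (((n : ℝ) * (11 / 19) : ℝ) : EReal) ≤ fM n k) ∧
    -- the same for the lower Minkowski dimension
    (∀ (n : ℕ) (B : Set (EuclideanSpace ℝ (Fin n))), Bornology.IsBounded B →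
      HasProg 7 (cube n) B → (((n : ℝ) * (11 / 19) : ℝ) : EReal) ≤ lowerMinkowski B) ∧
    -- covering numbers at every scale, for an arbitrary set `R` of common differences: `V ⊆ R` is
    -- finite and separated in the maximum norm, `U` is a finite covering of `B`
    ∀ (n : ℕ) (R B : Set (EuclideanSpace ℝ (Fin n))), HasProg 7 R B →
      ∀ δ : ℝ, 0 < δ → ∀ V : Finset (EuclideanSpace ℝ (Fin n)), (∀ v ∈ V, v ∈ R) →
        (∀ v ∈ V, ∀ w ∈ V, v ≠ w → ∃ i, δ ≤ |v i - w i|) →
        ∀ (ι : Type) [Fintype ι] (U : ι → Set (EuclideanSpace ℝ (Fin n))),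
        (∀ i, ∀ x ∈ U i, ∀ y ∈ U i, dist x y ≤ δ) → B ⊆ ⋃ i, U i →
        (V.card : ℝ) ^ (11 / 19 : ℝ) ≤ (21 : ℝ) ^ n * (Fintype.card ι : ℝ) := by
  classical
  have hA : Pool.Agent.K3h53.AP.APk 7 (19 / 11) := Pool.Agent.Helper16.AK.ap7
  have hc : (0 : ℝ) < 19 / 11 := by norm_num
  have hb : (1 : ℝ) / (19 / 11) = 11 / 19 := by norm_num
  refine ⟨?_, ?_, ?_, ?_⟩
  · intro S D hD
    have hex : ∀ d : ℤ, ∃ a : ℤ, d ∈ D → ∀ j : ℕ, j < 7 → a + (j : ℤ) * d ∈ S := by
      intro d
      by_cases hd : d ∈ D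
      · obtain ⟨a, ha⟩ := hD d hd
        exact ⟨a, fun _ => ha⟩
      · exact ⟨0, fun h => absurd h hd⟩
    choose a ha using hex
    have h1 := hA (D.image fun d => (a d, d)) S
      (by
        intro z hz w hw hzw
        obtain ⟨d, -, rfl⟩ := Finset.mem_image.1 (Finset.mem_coe.1 hz)
        obtain ⟨e, -, rfl⟩ := Finset.mem_image.1 (Finset.mem_coe.1 hw)
        have : d = e := hzw
        rw [this])
      (by
        intro z hz i hi
        obtain ⟨d, hd, rfl⟩ := Finset.mem_image.1 hz
        exact ha d hd i (by omega))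
    rw [Finset.card_image_of_injective _ (fun d e h => congrArg Prod.snd h)] at h1
    rw [← hb]
    exact rpow_of hc (Nat.cast_nonneg _) (Nat.cast_nonneg _) h1
  · intro n k hk
    rw [← hb, mul_one_div]
    exact (Pool.Agent.K3h53.AP.port hc hA).2.2.2 n k hk
  · intro n B hB hP
    rw [← hb, mul_one_div]
    exact (Pool.Agent.K3h53.AP.port hc hA).2.2.1 n B hB hP
  · intro n R B hP δ hδ V hV hs ι _ U hU hcov
    have h1 := (Pool.Agent.K3h53.AP.port hc hA).1 n R B hP δ hδ V hV hs ι U hU hcov
    have h2 := rpow_of hc (Nat.cast_nonneg _) (by positivity) h1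
    rw [← hb]
    refine h2.trans (le_of_eq ?_)
    norm_num

end Pool.Agent.Results.MP_4b405e_nt.SevenTerms
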