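import Pool.Agent.Helper20.RE.Terms
import Pool.Agent.Helper29.RE.L2
import Pool.Agent.Helper46.RE.PU
import Pool.Agent.Helper80.RE.PL

/-!
# Which terms of a progression force a dimension larger than `n / 2`?

Let `T = {0, t_1, …, t_k, N}`, `0 < t_i < N`.  We consider the bounded sets `B ⊆ ℝ^n` which contain the
terms with the numbers `t ∈ T` of a progression with every common difference `ρ ∈ [0,1]^n`, and the
infimum `f` of their upper Minkowski dimensions.  Two terms (`k = 0`) give the trivial bound `f ≥ n / 2`,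
all `N + 1` terms are the subject of the conjecture.  Let `s_i = (N - t_i) / t_i`.

We show that `f / n` is bounded away from `1 / 2` if and only if there is a relation `a(s) = b(s) ≠ 0`
of bounded complexity between the values of two integral forms `a`, `b` of degrees `d` and `d + 1`.  For
three terms `0 < m < N`, `m` prime to `N`, this gives `f = n / 2 + Θ(n / log N)`.
-/

set_option autoImplicit false

open Finset Filter Topology
open scoped Classical

namespace Pool.Agent.Results.MP_4b405e_nt.TermRelations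

/-- For every `ρ ∈ [0,1]^n` the set `B` contains the terms with the numbers `0`, `N` and `t_i` of a
progression with the common difference `ρ`. -/
def HasTerms {n k : ℕ} (N : ℕ) (t : Fin k → ℕ) (B : Set (EuclideanSpace ℝ (Fin n))) : Prop :=
  ∀ ρ : EuclideanSpace ℝ (Fin n), (∀ i, ρ i ∈ Set.Icc (0 : ℝ) 1) →
    ∃ x ∈ B, x + (N : ℝ) • ρ ∈ B ∧ ∀ i, x + (t i : ℝ) • ρ ∈ B

/-- The least number of sets of diameter at most `δ` covering `B` (for bounded `B`). -/
noncomputable def coverNum {n : ℕ} (B : Set (EuclideanSpace ℝ (Fin n))) (δ : ℝ) : ℕ :=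
  sInf {N | ∃ U : Fin N → Set (EuclideanSpace ℝ (Fin n)),
    (∀ i, ∀ x ∈ U i, ∀ y ∈ U i, dist x y ≤ δ) ∧ B ⊆ ⋃ i, U i}

/-- Upper Minkowski dimension. -/
noncomputable def upperMinkowski {n : ℕ} (B : Set (EuclideanSpace ℝ (Fin n))) : EReal :=
  limsup (fun δ : ℝ => ((Real.log (coverNum B δ) / Real.log (1 / δ) : ℝ) : EReal)) (𝓝[>] 0)

/-- Lower Minkowski dimension. -/
noncomputable def lowerMinkowski {n : ℕ} (B : Set (EuclideanSpace ℝ (Fin n))) : EReal :=
  liminf (fun δ : ℝ => ((Real.log (coverNum B δ) / Real.log (1 / δ) : ℝ) : EReal)) (𝓝[>] 0)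

/-- The infimum of the upper Minkowski dimensions of the bounded sets in `ℝ^n` which contain the terms
with the numbers `0`, `N`, `t_i` of a progression with every common difference in `[0,1]^n`. -/
noncomputable def f {k : ℕ} (n N : ℕ) (t : Fin k → ℕ) : EReal :=
  ⨅ (B : Set (EuclideanSpace ℝ (Fin n))) (_ : Bornology.IsBounded B) (_ : HasTerms N t B),
    upperMinkowski B

/-- The ratios `(N - t_i) / t_i`. -/
def ratio {k : ℕ} (N : ℕ) (t : Fin k → ℕ) (i : Fin k) : ℚ := ((N : ℚ) - t i) / t i

/-- The value at `s` of the form of degree `d` with the integral coefficients `a e`, where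
`e = (e_1, …, e_k)` runs through the exponents of the monomials of degree `d`. -/
def form {k : ℕ} (s : Fin k → ℚ) (d : ℕ) (a : (Fin k → ℕ) → ℤ) : ℚ :=
  ∑ e ∈ Finset.Nat.antidiagonalTuple k d, (a e : ℚ) * ∏ i, s i ^ e i

/-- The total number of binary digits of the coefficients of the form of degree `d`. -/
def digits {k : ℕ} (d : ℕ) (a : (Fin k → ℕ) → ℤ) : ℕ :=
  ∑ e ∈ Finset.Nat.antidiagonalTuple k d, Nat.size (a e).natAbs

theorem result :
    -- 1. a relation gives a dimension larger than `n / 2`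
    (∀ (k N : ℕ) (t : Fin k → ℕ), (∀ i, 0 < t i ∧ t i < N) →
      ∀ (d : ℕ) (a b : (Fin k → ℕ) → ℤ),
      form (ratio N t) d a = form (ratio N t) (d + 1) b → form (ratio N t) d a ≠ 0 →
      ∀ n : ℕ, (((n : ℝ) / (2 - 1 / (2 + 9 * k * ((d + 8) * (digits d a + digits (d + 1) b)))) : ℝ) :
          EReal) ≤ f n N t ∧
        ∀ B : Set (EuclideanSpace ℝ (Fin n)), Bornology.IsBounded B → HasTerms N t B →
          (((n : ℝ) / (2 - 1 / (2 + 9 * k * ((d + 8) * (digits d a + digits (d + 1) b)))) : ℝ) :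
            EReal) ≤ lowerMinkowski B) ∧
    -- 2. a dimension larger than `n / 2` gives a relation
    (∀ k : ℕ, 0 < k → ∀ δ : ℝ, 0 < δ → δ ≤ 1 → ∀ D : ℕ,
      8 * (k + 1) / δ * Real.log (8 * (k + 1) / δ) ≤ D →
      ∀ (N : ℕ) (t : Fin k → ℕ), (∀ i, 0 < t i ∧ t i < N) →
      ∀ n : ℕ, (((n : ℝ) / (2 - δ) : ℝ) : EReal) < f n N t →
      ∃ d ≤ D, ∃ a b : (Fin k → ℕ) → ℤ, (∀ e, |a e| ≤ 2 ^ D) ∧ (∀ e, |b e| ≤ 2 ^ D) ∧
        form (ratio N t) d a = form (ratio N t) (d + 1) b ∧ form (ratio N t) d a ≠ 0) ∧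
    -- 3. three terms
    (∀ m N : ℕ, 0 < m → m < N → 3 ≤ N → Nat.Coprime m N → ∀ n : ℕ,
      (((n : ℝ) / (2 - 1 / (2 + 144 * Nat.size N)) : ℝ) : EReal) ≤ f n N (fun _ : Fin 1 => m) ∧
      f n N (fun _ : Fin 1 => m) ≤
        (((n : ℝ) / (2 - 2 * Real.log 2 / Real.log N) : ℝ) : EReal)) := by
  refine ⟨fun k N t ht d a b h1 h2 n => ?_, fun k hk δ h0 h1 D hD N t ht n h => ?_, ?_⟩
  · -- there is an index
    have hk : Nonempty (Fin k) := by
      by_contra h
      rw [not_nonempty_iff] at h
      apply h2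
      rw [h1]
      unfold form
      refine Finset.sum_eq_zero fun e he => ?_
      rw [Finset.Nat.mem_antidiagonalTuple] at he
      have : ∑ i, e i = 0 := Finset.sum_of_isEmpty _
      omega
    obtain ⟨i₀⟩ := hk
    have hN : 0 < N := (ht i₀).1.trans (ht i₀).2
    have h := Pool.Agent.Helper20.RE.upper (Pool.Agent.Helper20.RE.rat N t)
      (Pool.Agent.Helper20.RE.rat_ne ht) d a b h1 h2
    have e : (2 : ℝ) - 1 / (2 + 9 * k * ((d + 8) * (digits d a + digits (d + 1) b))) =
        2 - 1 / (2 + 9 * k * (((d + 8) * (Pool.Agent.Helper20.RE.len d a +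
          Pool.Agent.Helper20.RE.len (d + 1) b) : ℕ) : ℝ)) := by
      push_cast
      rfl
    rw [← e] at h
    have hκ : (0 : ℝ) < 2 - 1 / (2 + 9 * k * ((d + 8) * (digits d a + digits (d + 1) b))) := by
      have h3 : (1 : ℝ) / (2 + 9 * k * ((d + 8) * (digits d a + digits (d + 1) b))) ≤ 1 := by
        rw [div_le_one (by positivity)]
        have : (0 : ℝ) ≤ 9 * k * ((d + 8) * (digits d a + digits (d + 1) b)) := by positivity
        linarith
      linarith
    exact ⟨Pool.Agent.Helper20.RE.fT_ge Pool.Agent.Helper80.RE.s_PL hN (fun i => (ht i).1) hκ h,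
      fun B hB hP => Pool.Agent.Helper20.RE.terms_lower Pool.Agent.Helper80.RE.s_PL hN
        (fun i => (ht i).1) hκ h hB hP⟩
  · by_contra hno
    have hN : 0 < N := (ht ⟨0, hk⟩).1.trans (ht ⟨0, hk⟩).2
    refine absurd h (not_lt.2 ?_)
    refine Pool.Agent.Helper20.RE.fT_le Pool.Agent.Helper46.RE.PU hN (fun i => (ht i).1)
      (by linarith) fun κ₁ hκ₁ hE => hno ?_
    exact Pool.Agent.Helper29.RE.L2 k hk δ h0 h1 D hD _ (Pool.Agent.Helper20.RE.rat_ne ht)
      (hE.mono hκ₁.le)
  · intro m N hm hmN hN3 hcop n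
    have hN : 0 < N := by omega
    have ht : ∀ i : Fin 1, 0 < (fun _ : Fin 1 => m) i ∧ (fun _ : Fin 1 => m) i < N :=
      fun _ => ⟨hm, hmN⟩
    set s : ℚ := ((N : ℚ) - m) / m with hs
    have hrat : Pool.Agent.Helper20.RE.rat N (fun _ : Fin 1 => m) = fun _ => s := rfl
    have hcast : s = (((N : ℤ) - m : ℤ) : ℚ) / ((m : ℤ) : ℚ) := by
      rw [hs]
      push_cast
      rfl
    have hnat : ((N : ℤ) - m : ℤ).natAbs = N - m := by omega
    have hcop2 : Nat.Coprime ((N : ℤ) - m : ℤ).natAbs ((m : ℤ)).natAbs := by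
      rw [hnat, Int.natAbs_natCast]
      exact (Nat.coprime_sub_self_left hmN.le).2 hcop.symm
    have hnum : s.num = (N : ℤ) - m := by
      rw [hcast]
      exact Rat.num_div_eq_of_coprime (by exact_mod_cast hm) hcop2
    have hden : (s.den : ℤ) = m := by
      rw [hcast]
      exact Rat.den_div_eq_of_coprime (by exact_mod_cast hm) hcop2
    have hden' : s.den = m := by exact_mod_cast hden
    have hmax : max s.num.natAbs s.den = max (N - m) m := by
      rw [hnum, hden', hnat]
    have hs0 : s ≠ 0 := Pool.Agent.Helper20.RE.rat_ne ht 0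
    have hle : max s.num.natAbs s.den ≤ N := by
      rw [hmax]
      omega
    have hge : N ≤ 2 * max s.num.natAbs s.den := by
      rw [hmax]
      omega
    have hN3' : (3 : ℝ) ≤ N := by exact_mod_cast hN3
    have hlogN : 0 < Real.log N := Real.log_pos (by linarith)
    refine ⟨?_, ?_⟩
    · refine Pool.Agent.Helper20.RE.fT_ge Pool.Agent.Helper80.RE.s_PL hN (fun _ => hm) ?_ ?_
      · have h3 : (1 : ℝ) / (2 + 144 * Nat.size N) ≤ 1 := by
          rw [div_le_one (by positivity)]
          have : (0 : ℝ) ≤ 144 * Nat.size N := by positivity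
          linarith
        linarith
      · rw [hrat]
        refine (Pool.Agent.Helper20.RE.three_upper s hs0).mono ?_
        have h4 : (Nat.size (max s.num.natAbs s.den) : ℝ) ≤ Nat.size N := by
          exact_mod_cast Nat.size_le_size hle
        apply sub_le_sub_left
        apply one_div_le_one_div_of_le (by positivity)
        linarith
    · have h5 : Real.log N ≤ Real.log (2 * (max s.num.natAbs s.den : ℕ)) := by
        apply Real.log_le_log (by linarith)
        exact_mod_cast hge
      have h6 : 2 * Real.log 2 / Real.log (2 * (max s.num.natAbs s.den : ℕ)) ≤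
          2 * Real.log 2 / Real.log N := by
        apply div_le_div_of_nonneg_left _ hlogN h5
        have := Real.log_pos (by norm_num : (1 : ℝ) < 2)
        linarith
      have h2 : 2 ≤ max s.num.natAbs s.den := by
        rw [hmax]
        omega
      refine Pool.Agent.Helper20.RE.fT_le Pool.Agent.Helper46.RE.PU hN (fun _ => hm) ?_
        fun κ₁ hκ₁ hE => ?_
      · rw [sub_pos, div_lt_iff₀ hlogN]
        have h7 : Real.log 2 < Real.log N := Real.log_lt_log (by norm_num) (by linarith)
        linarith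
      · rw [hrat] at hE
        have h8 := Pool.Agent.Helper20.RE.three_lower s h2 κ₁ hE
        linarith

end Pool.Agent.Results.MP_4b405e_nt.TermRelations
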